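import Pool.Agent.Lib.MP_4354a3_al.PE.Mod

namespace Pool.Agent.Results.MP_4354a3_al.KRAllSizes

open Pool.Agent.Lib.MP_4354a3_al

/-- Verlinde-ring images of all Kirillov-Reshetikhin modules of the quantum loop algebra, for
every simple type, node, level and size `m = j t (k + h) + r`. -/
theorem result {ι M N : Type*} [Fintype ι] [DecidableEq ι] [AddCommGroup M] [AddCommGroup N]
    (D : SimpleDatum ι M N) (q : ℂ) (hq0 : q ≠ 0) (hq : ∀ n : ℕ, 0 < n → q ^ n ≠ 1)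
    (a : D.b.support) (m : ℕ) (p : ℤ) {V : Type*} [AddCommGroup V] [Module ℂ V] :
    (∃ (n : ℕ) (x φ : ℤˣ → D.b.support → ℤ → Module.End ℂ (Fin n → ℂ)), D.IsKR q x φ a m p) ∧
    ∀ x φ : ℤˣ → D.b.support → ℤ → Module.End ℂ V, D.IsKR q x φ a m p →
      ∃ χ, D.IsChar q φ χ ∧ (∃! c, D.IsClass χ c) ∧
        ∃ e : D.b.support → ℕ, 2 • D.rho = ∑ i, e i • D.P.root i ∧
        ∀ k j r : ℕ, (m : ℤ) = j * (D.t a * (k + D.hv)) + r →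
          (r ≤ D.t a * k → ∃ y, D.IsImage k χ y ∧ y ≠ 0 ∧ ∀ μ, 0 ≤ (-1) ^ (e a * j) * y μ) ∧
          (r = 0 ∨ r = D.t a * k → ∃ y, D.IsImage k χ y ∧ D.IsFusionUnit k y) ∧
          (D.t a * k < r → (r : ℤ) < D.t a * (k + D.hv) → D.IsImage k χ 0) := by
  refine ⟨D.exists_KR q hq0 hq a m p, fun x φ h => ?_⟩
  obtain ⟨Q, hQ, -, h1⟩ := D.exists_chars q hq0 hq V
  obtain ⟨e, l, he, -, -, h2⟩ := D.main_all hQ a
  exact ⟨_, h1 a m p x φ h, (D.main.2 _ hQ a).1 m, e, he, fun k j r hm =>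
    ⟨((h2 k).2.2.2 j r m hm).1, D.main_unit hQ a hm, ((h2 k).2.2.2 j r m hm).2⟩⟩

/-- Q1 (a), (b), (c) word for word: the case `j = 0`, `r = m` of `result`. -/
theorem q1 {ι M N : Type*} [Fintype ι] [DecidableEq ι] [AddCommGroup M] [AddCommGroup N]
    (D : SimpleDatum ι M N) (q : ℂ) (hq0 : q ≠ 0) (hq : ∀ n : ℕ, 0 < n → q ^ n ≠ 1)
    (a : D.b.support) (m : ℕ) (p : ℤ) {V : Type*} [AddCommGroup V] [Module ℂ V]
    (x φ : ℤˣ → D.b.support → ℤ → Module.End ℂ V) (h : D.IsKR q x φ a m p) :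
    ∃ χ, D.IsChar q φ χ ∧ (∃! c, D.IsClass χ c) ∧ ∀ k : ℕ,
      (m ≤ D.t a * k → ∃ y, D.IsImage k χ y ∧ y ≠ 0 ∧ ∀ μ, 0 ≤ y μ) ∧
      (m = 0 ∨ m = D.t a * k → ∃ y, D.IsImage k χ y ∧ D.IsFusionUnit k y) ∧
      (m = D.t a * k + 1 → D.IsImage k χ 0) := by
  obtain ⟨χ, h3, h4, e, -, h5⟩ := (result D q hq0 hq a m p (V := V)).2 x φ h
  refine ⟨χ, h3, h4, fun k => ?_⟩
  obtain ⟨k1, k2, k3⟩ := h5 k 0 m (by simp)
  refine ⟨fun hm => by simpa using k1 hm, k2, fun hm => k3 (by omega) ?_⟩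
  have h6 : 0 < D.cv D.θ D.rho := D.pos_θ
  have h7 := D.t_pos a
  rw [hm, D.hv_eq]
  push_cast
  nlinarith

end Pool.Agent.Results.MP_4354a3_al.KRAllSizes
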