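import Pool.Agent.Lib.MP_4354a3_al.PE.Mod

namespace Pool.Agent.Results.MP_4354a3_al.KRPeriod

open Pool.Agent.Lib.MP_4354a3_al

/-- Periodicity of the Verlinde-ring images of the Kirillov-Reshetikhin modules: a shift of the
size by `t (k + h)` multiplies the image by a sign and by the simple current `[L(k l)]`. -/
theorem result {ι M N : Type*} [Fintype ι] [DecidableEq ι] [AddCommGroup M] [AddCommGroup N]
    (D : SimpleDatum ι M N) (q : ℂ) (hq0 : q ≠ 0) (hq : ∀ n : ℕ, 0 < n → q ^ n ≠ 1)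
    (a : D.b.support) {V : Type*} [AddCommGroup V] [Module ℂ V] :
    ∃ (χ : ℕ → AddMonoidAlgebra ℤ M) (e : D.b.support → ℕ) (l : M),
      (∀ m p, ∃ (n : ℕ) (x φ : ℤˣ → D.b.support → ℤ → Module.End ℂ (Fin n → ℂ)),
        D.IsKR q x φ a m p ∧ D.IsChar q φ (χ m)) ∧
      (∀ m p (x φ : ℤˣ → D.b.support → ℤ → Module.End ℂ V),
        D.IsKR q x φ a m p → D.IsChar q φ (χ m)) ∧
      2 • D.rho = ∑ i, e i • D.P.root i ∧ D.InAlcove 1 l ∧
      l - D.t a • D.ω a ∈ AddSubgroup.closure (Set.range fun α => D.t α • D.P.root α) ∧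
      ∀ k : ℕ, D.IsImage k (χ (D.t a * k)) (Finsupp.single (k • l) 1) ∧
        ∀ m m' : ℕ, (m' : ℤ) = m + D.t a * (k + D.hv) → ∃ y,
          D.IsImage k (χ (D.t a * k) * χ m) y ∧ D.IsImage k (χ m') ((-1) ^ e a • y) := by
  obtain ⟨Q, hQ, h0, h1⟩ := D.exists_chars q hq0 hq V
  obtain ⟨e, l, he, l1, l2, h2⟩ := D.main_all hQ a
  exact ⟨Q a, e, l, h0 a, h1 a, he, l1, l2, fun k => ⟨(h2 k).1, (h2 k).2.2.1⟩⟩

end Pool.Agent.Results.MP_4354a3_al.KRPeriod
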