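import Pool.Agent.Lib.MP_4354a3_al.PE.Mod

namespace Pool.Agent.Results.MP_4354a3_al.KRSymmetry

open Pool.Agent.Lib.MP_4354a3_al

/-- Symmetry of the Verlinde-ring images of the Kirillov-Reshetikhin modules under
`m ↦ t k - m`. -/
theorem result {ι M N : Type*} [Fintype ι] [DecidableEq ι] [AddCommGroup M] [AddCommGroup N]
    (D : SimpleDatum ι M N) (q : ℂ) (hq0 : q ≠ 0) (hq : ∀ n : ℕ, 0 < n → q ^ n ≠ 1)
    (a : D.b.support) {V : Type*} [AddCommGroup V] [Module ℂ V] :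
    ∃ χ : ℕ → AddMonoidAlgebra ℤ M,
      (∀ m p, ∃ (n : ℕ) (x φ : ℤˣ → D.b.support → ℤ → Module.End ℂ (Fin n → ℂ)),
        D.IsKR q x φ a m p ∧ D.IsChar q φ (χ m)) ∧
      (∀ m p (x φ : ℤˣ → D.b.support → ℤ → Module.End ℂ V),
        D.IsKR q x φ a m p → D.IsChar q φ (χ m)) ∧
      ∀ k m m' : ℕ, m + m' = D.t a * k → ∃ y, D.IsImage k (χ m') y ∧
        D.IsImage k (χ (D.t a * k) * (χ m).mapDomain fun μ => -μ) y := by
  obtain ⟨Q, hQ, h0, h1⟩ := D.exists_chars q hq0 hq V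
  obtain ⟨e, l, -, -, -, h2⟩ := D.main_all hQ a
  exact ⟨Q a, h0 a, h1 a, fun k => (h2 k).2.1⟩

end Pool.Agent.Results.MP_4354a3_al.KRSymmetry
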